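import Mathlib

open Complex Metric Set

namespace Pool.Agent.Results.MP_e5b4ec_an.TwoSided

/-- `v`, as a function of the angle, is the displacement of an orientation preserving
`M`-quasisymmetric homeomorphism `h` of the circle: `h (e^{i t}) = e^{i (t + v t)}`, the lift
`t ↦ t + v t` is continuous and strictly increasing, and the images of two adjacent arcs of equal
length `t` at most `π` (half of the circle) have lengths whose quotient is at most `M`.
The last field is the normalisation of the mean. -/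
structure IsQS (M : ℝ) (v : ℝ → ℝ) : Prop where
  continuous : Continuous v
  periodic : ∀ t, v (t + 2 * Real.pi) = v t
  strictMono : StrictMono (fun t => t + v t)
  right_le : ∀ a t, 0 < t → t ≤ Real.pi →
    ((a + t) + v (a + t)) - (a + v a) ≤ M * ((a + v a) - ((a - t) + v (a - t)))
  left_le : ∀ a t, 0 < t → t ≤ Real.pi →
    (a + v a) - ((a - t) + v (a - t)) ≤ M * (((a + t) + v (a + t)) - (a + v a))
  mean_zero : ∫ t in (-Real.pi)..Real.pi, v t = 0

/-- `F` is an `M`-quasisymmetric starlike function: `F z = z exp (q z)` with `q` holomorphic in the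
unit disk, `q 0 = 0`, and `Im q` the harmonic extension `U` of `v` to the disk. -/
def IsQSStarlike (M : ℝ) (F : ℂ → ℂ) : Prop :=
  ∃ (v : ℝ → ℝ) (q : ℂ → ℂ) (U : ℂ → ℝ), IsQS M v ∧ DifferentiableOn ℂ q (ball 0 1) ∧ q 0 = 0 ∧
    ContinuousOn U (closedBall 0 1) ∧ (∀ t : ℝ, U (Complex.exp (t * I)) = v t) ∧
    (∀ z ∈ ball (0 : ℂ) 1, (q z).im = U z) ∧ ∀ z ∈ ball (0 : ℂ) 1, F z = z * Complex.exp (q z)

/-- The second Taylor coefficient at the origin. -/
noncomputable def A2 (F : ℂ → ℂ) : ℂ := iteratedDeriv 2 F 0 / 2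

/-- The constant `c(M)`. -/
noncomputable def c (M : ℝ) : ℝ := sSup {x | ∃ F : ℂ → ℂ, IsQSStarlike M F ∧ x = ‖A2 F‖}

lemma A2_eq {F q : ℂ → ℂ} (hq : DifferentiableOn ℂ q (ball 0 1)) (h0 : q 0 = 0)
    (hF : ∀ z ∈ ball (0 : ℂ) 1, F z = z * Complex.exp (q z)) : A2 F = deriv q 0 := by
  have hq' : DifferentiableOn ℂ (deriv q) (ball 0 1) := hq.deriv isOpen_ball
  have hd : ∀ z ∈ ball (0 : ℂ) 1, HasDerivAt q (deriv q z) z := fun z hz =>
    (hq.differentiableAt (isOpen_ball.mem_nhds hz)).hasDerivAt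
  have hd' : ∀ z ∈ ball (0 : ℂ) 1, HasDerivAt (deriv q) (deriv (deriv q) z) z := fun z hz =>
    (hq'.differentiableAt (isOpen_ball.mem_nhds hz)).hasDerivAt
  have h1 : ∀ z ∈ ball (0 : ℂ) 1,
      HasDerivAt F (1 * Complex.exp (q z) + z * (Complex.exp (q z) * deriv q z)) z := by
    intro z hz
    have h2 : HasDerivAt (fun z => z * Complex.exp (q z))
        (1 * Complex.exp (q z) + z * (Complex.exp (q z) * deriv q z)) z :=
      (hasDerivAt_id z).mul (hd z hz).cexp
    refine h2.congr_of_eventuallyEq ?_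
    filter_upwards [isOpen_ball.mem_nhds hz] with w hw
    exact hF w hw
  have hz0 : (0 : ℂ) ∈ ball (0 : ℂ) 1 := mem_ball_self one_pos
  have h3 : deriv F =ᶠ[nhds 0]
      fun z => 1 * Complex.exp (q z) + z * (Complex.exp (q z) * deriv q z) := by
    filter_upwards [isOpen_ball.mem_nhds hz0] with w hw
    exact (h1 w hw).deriv
  have h4 : HasDerivAt (fun z => 1 * Complex.exp (q z) + z * (Complex.exp (q z) * deriv q z))
      (1 * (Complex.exp (q 0) * deriv q 0) + (1 * (Complex.exp (q 0) * deriv q 0) +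
        0 * ((Complex.exp (q 0) * deriv q 0) * deriv q 0 + Complex.exp (q 0) * deriv (deriv q) 0)))
      0 := by
    apply HasDerivAt.add
    · exact (hd 0 hz0).cexp.const_mul 1
    · exact (hasDerivAt_id (0 : ℂ)).mul ((hd 0 hz0).cexp.mul (hd' 0 hz0))
  have h5 : deriv (deriv F) 0 = 2 * deriv q 0 := by
    rw [h3.deriv_eq, h4.deriv, h0]
    simp; ring
  unfold A2
  rw [iteratedDeriv_succ, iteratedDeriv_one, h5]
  ring

lemma half (M : ℝ) (hM : 1 ≤ M) (v : ℝ → ℝ) (hv : IsQS M v) (s : ℝ) :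
    |v (s + Real.pi) - v s| ≤ Real.pi * ((M - 1) / (M + 1)) := by
  have h1 := hv.right_le s Real.pi Real.pi_pos le_rfl
  have h2 := hv.left_le s Real.pi Real.pi_pos le_rfl
  have h3 : v (s - Real.pi) = v (s + Real.pi) := by
    have := hv.periodic (s - Real.pi)
    rw [← this]; congr 1; ring
  rw [h3] at h1 h2
  have hM1 : 0 < M + 1 := by linarith
  rw [mul_div_assoc', le_div_iff₀ hM1, ← abs_of_pos hM1, ← abs_mul, abs_le]
  constructor
  · nlinarith
  · nlinarith

lemma interior (κ : ℝ) (hκ : 0 ≤ κ) (v : ℝ → ℝ) (q : ℂ → ℂ) (U : ℂ → ℝ)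
    (hv : ∀ s, |v (s + Real.pi) - v s| ≤ Real.pi * κ) (hq : DifferentiableOn ℂ q (ball 0 1))
    (hU : ContinuousOn U (closedBall 0 1)) (hb : ∀ t : ℝ, U (Complex.exp (t * I)) = v t)
    (hi : ∀ z ∈ ball (0 : ℂ) 1, (q z).im = U z) (z : ℂ) (hz : z ∈ ball (0 : ℂ) 1) :
    (q z - q (-z)).im ≤ Real.pi * κ := by
  have hneg : ∀ w ∈ closedBall (0 : ℂ) 1, -w ∈ closedBall (0 : ℂ) 1 := by
    intro w hw; simpa using hw
  have hneg' : ∀ w ∈ ball (0 : ℂ) 1, -w ∈ ball (0 : ℂ) 1 := by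
    intro w hw; simpa using hw
  have hD : ContinuousOn (fun w => U w - U (-w)) (closedBall (0 : ℂ) 1) := by
    apply hU.sub
    exact hU.comp continuous_neg.continuousOn hneg
  obtain ⟨z0, hz0, hmax⟩ := (isCompact_closedBall (0 : ℂ) 1).exists_isMaxOn
    ⟨0, mem_closedBall_self zero_le_one⟩ hD
  have hmax' : ∀ w ∈ closedBall (0 : ℂ) 1, U w - U (-w) ≤ U z0 - U (-z0) := fun w hw => hmax hw
  have hval : U z0 - U (-z0) ≤ Real.pi * κ := by
    by_cases h1 : ‖z0‖ = 1
    · have e1 : Complex.exp ((z0.arg : ℂ) * I) = z0 := by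
        have := Complex.norm_mul_exp_arg_mul_I z0
        rw [h1] at this; simpa using this
      have e2 : Complex.exp (((z0.arg + Real.pi : ℝ) : ℂ) * I) = -z0 := by
        push_cast
        rw [add_mul, Complex.exp_add, e1, Complex.exp_pi_mul_I]; ring
      have h2 := hv z0.arg
      rw [← hb, ← hb, e1, e2] at h2
      have := (abs_le.1 h2).1
      linarith
    · have hz0b : z0 ∈ ball (0 : ℂ) 1 := by
        rw [mem_closedBall_zero_iff] at hz0
        rw [mem_ball_zero_iff]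
        exact lt_of_le_of_ne hz0 h1
      have hf : DifferentiableOn ℂ (fun w => Complex.exp (-I * (q w - q (-w)))) (ball 0 1) := by
        apply DifferentiableOn.cexp
        apply DifferentiableOn.const_mul
        apply hq.sub
        exact hq.comp differentiable_neg.differentiableOn hneg'
      have hn : ∀ w ∈ ball (0 : ℂ) 1,
          ‖Complex.exp (-I * (q w - q (-w)))‖ = Real.exp (U w - U (-w)) := by
        intro w hw
        rw [Complex.norm_exp]
        congr 1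
        rw [← hi w hw, ← hi (-w) (hneg' w hw)]
        simp
      have hm : IsMaxOn (norm ∘ fun w => Complex.exp (-I * (q w - q (-w)))) (ball 0 1) z0 := by
        intro w hw
        show ‖_‖ ≤ ‖_‖
        rw [hn w hw, hn z0 hz0b]
        exact Real.exp_le_exp.2 (hmax' w (ball_subset_closedBall hw))
      have he := Complex.norm_eqOn_of_isPreconnected_of_isMaxOn
        (convex_ball (0 : ℂ) 1).isPreconnected isOpen_ball hf hz0b hm
      have h0 := he (mem_ball_self one_pos : (0 : ℂ) ∈ ball (0 : ℂ) 1)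
      have h00 : Real.exp (U 0 - U (-0)) = Real.exp (U z0 - U (-z0)) := by
        rw [← hn 0 (mem_ball_self one_pos), ← hn z0 hz0b]
        exact h0
      have := Real.exp_injective h00
      rw [← this]
      simp
      positivity
  have h3 := hmax' z (ball_subset_closedBall hz)
  rw [Complex.sub_im, hi z hz, hi (-z) (hneg' z hz)]
  linarith

lemma strip (κ : ℝ) (hκ : 0 < κ) (q : ℂ → ℂ) (hq : DifferentiableOn ℂ q (ball 0 1))
    (h : ∀ z ∈ ball (0 : ℂ) 1, |(q z - q (-z)).im| < Real.pi * κ) :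
    ‖deriv q 0‖ ≤ 2 * κ := by
  have hneg' : ∀ w ∈ ball (0 : ℂ) 1, -w ∈ ball (0 : ℂ) 1 := by
    intro w hw; simpa using hw
  have hz0 : (0 : ℂ) ∈ ball (0 : ℂ) 1 := mem_ball_self one_pos
  set p : ℂ → ℂ := fun z => Complex.exp ((q z - q (-z)) / (2 * κ)) with hp
  have hpd : DifferentiableOn ℂ p (ball 0 1) := by
    apply DifferentiableOn.cexp
    apply DifferentiableOn.div_const
    apply hq.sub
    exact hq.comp differentiable_neg.differentiableOn hneg'
  have hpre : ∀ z ∈ ball (0 : ℂ) 1, 0 < (p z).re := by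
    intro z hz
    have h1 := h z hz
    have e : ((q z - q (-z)) / (2 * κ)).im = (q z - q (-z)).im / (2 * κ) := by
      have : (2 * (κ : ℂ)) = ((2 * κ : ℝ) : ℂ) := by push_cast; ring
      rw [this, Complex.div_ofReal_im]
    simp only [hp]
    rw [Complex.exp_re, e]
    apply mul_pos (Real.exp_pos _)
    apply Real.cos_pos_of_mem_Ioo
    rw [abs_lt] at h1
    constructor
    · rw [lt_div_iff₀ (by positivity)]; linarith [h1.1]
    · rw [div_lt_iff₀ (by positivity)]; linarith [h1.2]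
  have hp1 : ∀ z ∈ ball (0 : ℂ) 1, p z + 1 ≠ 0 := by
    intro z hz h0
    have := congrArg Complex.re h0
    simp at this
    linarith [hpre z hz]
  set B : ℂ → ℂ := fun z => (p z - 1) / (p z + 1) with hB
  have hBd : DifferentiableOn ℂ B (ball 0 1) := (hpd.sub_const 1).div (hpd.add_const 1) hp1
  have hp0 : p 0 = 1 := by simp [hp]
  have hB0 : B 0 = 0 := by simp [hB, hp0]
  have hmap : MapsTo B (ball 0 1) (ball (B 0) 1) := by
    intro z hz
    rw [hB0, mem_ball_zero_iff]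
    simp only [hB]
    rw [norm_div, div_lt_one (norm_pos_iff.2 (hp1 z hz))]
    apply lt_of_pow_lt_pow_left₀ 2 (norm_nonneg _)
    rw [Complex.sq_norm, Complex.sq_norm, Complex.normSq_apply, Complex.normSq_apply]
    simp
    nlinarith [hpre z hz]
  have hS := Complex.norm_deriv_le_div_of_mapsTo_ball hBd (hmap.mono_right ball_subset_closedBall) one_pos
  have hqd : HasDerivAt q (deriv q 0) 0 :=
    (hq.differentiableAt (isOpen_ball.mem_nhds hz0)).hasDerivAt
  have hqn : HasDerivAt (fun z => q (-z)) (-deriv q 0) 0 := by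
    have h1 : HasDerivAt q (deriv q 0) (-0) := by simpa using hqd
    have := h1.comp (0 : ℂ) (hasDerivAt_neg (0 : ℂ))
    simpa [Function.comp_def] using this
  have hpd0 : HasDerivAt p (p 0 * ((deriv q 0 - -deriv q 0) / (2 * κ))) 0 :=
    ((hqd.sub hqn).div_const _).cexp
  have hBd0 : HasDerivAt B (((p 0 * ((deriv q 0 - -deriv q 0) / (2 * κ))) * (p 0 + 1) -
      (p 0 - 1) * (p 0 * ((deriv q 0 - -deriv q 0) / (2 * κ)))) / (p 0 + 1) ^ 2) 0 :=
    (hpd0.sub_const 1).div (hpd0.add_const 1) (hp1 0 hz0)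
  have hval : deriv B 0 = deriv q 0 / (2 * κ) := by
    rw [hBd0.deriv, hp0]
    have : (κ : ℂ) ≠ 0 := by exact_mod_cast hκ.ne'
    field_simp
    ring
  rw [hval, norm_div] at hS
  have hn : ‖(2 * (κ : ℂ))‖ = 2 * κ := by
    rw [norm_mul, Complex.norm_real, Real.norm_of_nonneg hκ.le]; simp
  rw [hn, div_one, div_le_one (by positivity)] at hS
  exact hS

theorem upper (M : ℝ) (hM : 1 ≤ M) (F : ℂ → ℂ) (hF : IsQSStarlike M F) :
    ‖A2 F‖ ≤ 2 * (M - 1) / (M + 1) := by
  obtain ⟨v, q, U, hv, hq, h0, hU, hb, hi, hFz⟩ := hF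
  rw [A2_eq hq h0 hFz]
  have hκ : 0 ≤ (M - 1) / (M + 1) := div_nonneg (by linarith) (by linarith)
  have key : ∀ z ∈ ball (0 : ℂ) 1, |(q z - q (-z)).im| ≤ Real.pi * ((M - 1) / (M + 1)) := by
    intro z hz
    have h1 := interior _ hκ v q U (half M hM v hv) hq hU hb hi z hz
    have h2 := interior _ hκ v q U (half M hM v hv) hq hU hb hi (-z) (by simpa using hz)
    rw [abs_le]
    refine ⟨?_, h1⟩
    rw [neg_neg] at h2
    have : (q (-z) - q z).im = -(q z - q (-z)).im := by simp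
    linarith
  apply le_of_forall_pos_le_add
  intro ε hε
  have := strip ((M - 1) / (M + 1) + ε / 2) (by positivity) q hq (fun z hz =>
    lt_of_le_of_lt (key z hz) (by
      have := Real.pi_pos
      nlinarith))
  calc ‖deriv q 0‖ ≤ 2 * ((M - 1) / (M + 1) + ε / 2) := this
    _ = 2 * (M - 1) / (M + 1) + ε := by ring


lemma slit (r : ℝ) (h0 : 0 ≤ r) (h1 : r < 1) (z : ℂ) (hz : z ∈ closedBall (0 : ℂ) 1) :
    1 - (r : ℂ) * z ∈ slitPlane := by
  rw [mem_closedBall_zero_iff] at hz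
  left
  have h2 : z.re ≤ 1 := (Complex.re_le_norm z).trans hz
  simp
  nlinarith

lemma exp_mem (t : ℝ) : Complex.exp (t * I) ∈ closedBall (0 : ℂ) 1 := by
  rw [mem_closedBall_zero_iff, Complex.norm_exp_ofReal_mul_I]

lemma dphi (r : ℝ) (h0 : 0 ≤ r) (h1 : r < 1) (t : ℝ) :
    HasDerivAt (fun t : ℝ => t + -2 * (1 - (r : ℂ) * Complex.exp (t * I)).arg)
      (1 + 2 * ((r : ℂ) * Complex.exp (t * I) / (1 - (r : ℂ) * Complex.exp (t * I))).re) t := by
  have e0 : HasDerivAt (fun t : ℝ => (t : ℂ)) 1 t := by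
    simpa using (hasDerivAt_id t).ofReal_comp
  have e2 := (e0.mul_const I).cexp
  have e3 := (e2.const_mul (r : ℂ)).const_sub 1
  have e4 := e3.clog_real (slit r h0 h1 _ (exp_mem t))
  have e5 := Complex.imCLM.hasFDerivAt.comp_hasDerivAt t e4
  have e6 := (hasDerivAt_id t).add (e5.const_mul (-2))
  have e7 : (1 + 2 * ((r : ℂ) * Complex.exp (t * I) / (1 - (r : ℂ) * Complex.exp (t * I))).re) =
      1 + -2 * Complex.imCLM (-((r : ℂ) * (Complex.exp (t * I) * (1 * I))) /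
        (1 - (r : ℂ) * Complex.exp (t * I))) := by
    have : -((r : ℂ) * (Complex.exp (t * I) * (1 * I))) / (1 - (r : ℂ) * Complex.exp (t * I)) =
      -((r : ℂ) * Complex.exp (t * I) / (1 - (r : ℂ) * Complex.exp (t * I)) * I) := by ring
    rw [this]
    simp
  rw [e7]
  refine e6.congr_of_eventuallyEq (Filter.Eventually.of_forall fun s => ?_)
  simp [Complex.log_im]

lemma bnd (r K : ℝ) (h0 : 0 ≤ r) (h1 : r < 1) (hK : 1 ≤ K) (hrK : K * (1 - r) = 1 + r) (t : ℝ) :
    1 / K ≤ 1 + 2 * ((r : ℂ) * Complex.exp (t * I) / (1 - (r : ℂ) * Complex.exp (t * I))).re ∧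
    1 + 2 * ((r : ℂ) * Complex.exp (t * I) / (1 - (r : ℂ) * Complex.exp (t * I))).re ≤ K := by
  set w : ℂ := (r : ℂ) * Complex.exp (t * I) with hw
  have hn : ‖w‖ = r := by
    rw [hw, norm_mul, Complex.norm_exp_ofReal_mul_I, Complex.norm_real, Real.norm_of_nonneg h0,
      mul_one]
  have hsq : w.re * w.re + w.im * w.im = r ^ 2 := by
    rw [← Complex.normSq_apply, ← Complex.sq_norm, hn]
  have hx : |w.re| ≤ r := by rw [← hn]; exact Complex.abs_re_le_norm w
  have hx1 := (abs_le.1 hx).1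
  have hx2 := (abs_le.1 hx).2
  have hN : Complex.normSq (1 - w) = 1 - 2 * w.re + r ^ 2 := by
    rw [Complex.normSq_apply]; simp; nlinarith
  have hNpos : 0 < 1 - 2 * w.re + r ^ 2 := by nlinarith [sq_nonneg (1 - r)]
  have hval : 1 + 2 * (w / (1 - w)).re = (1 - r ^ 2) / (1 - 2 * w.re + r ^ 2) := by
    rw [Complex.div_re, hN]
    simp
    rw [eq_div_iff hNpos.ne']
    field_simp
    nlinarith
  rw [hval]
  constructor
  · rw [div_le_div_iff₀ (by linarith) hNpos]
    have : (1 - r ^ 2) * K = (1 + r) ^ 2 := by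
      calc (1 - r ^ 2) * K = (1 + r) * (K * (1 - r)) := by ring
        _ = (1 + r) ^ 2 := by rw [hrK]; ring
    rw [this]; nlinarith
  · rw [div_le_iff₀ hNpos]
    have : K * (1 - 2 * r + r ^ 2) = 1 - r ^ 2 := by
      calc K * (1 - 2 * r + r ^ 2) = (K * (1 - r)) * (1 - r) := by ring
        _ = 1 - r ^ 2 := by rw [hrK]; ring
    rw [← this]
    apply mul_le_mul_of_nonneg_left _ (by linarith)
    linarith

lemma isQS (r K : ℝ) (h0 : 0 ≤ r) (h1 : r < 1) (hK : 1 ≤ K) (hrK : K * (1 - r) = 1 + r) :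
    IsQS (K ^ 2) (fun t => -2 * (1 - (r : ℂ) * Complex.exp (t * I)).arg) := by
  have hKp : 0 < K := by linarith
  have hd := dphi r h0 h1
  have hdiff : Differentiable ℝ (fun t : ℝ => t + -2 * (1 - (r : ℂ) * Complex.exp (t * I)).arg) :=
    fun t => (hd t).differentiableAt
  have hup : ∀ x y : ℝ, x ≤ y → (y + -2 * (1 - (r : ℂ) * Complex.exp (y * I)).arg) -
      (x + -2 * (1 - (r : ℂ) * Complex.exp (x * I)).arg) ≤ K * (y - x) := by
    intro x y hxy
    exact image_sub_le_mul_sub_of_deriv_le hdiff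
      (fun t => by rw [(hd t).deriv]; exact (bnd r K h0 h1 hK hrK t).2) hxy
  have hlo : ∀ x y : ℝ, x ≤ y → 1 / K * (y - x) ≤
      (y + -2 * (1 - (r : ℂ) * Complex.exp (y * I)).arg) -
      (x + -2 * (1 - (r : ℂ) * Complex.exp (x * I)).arg) := by
    intro x y hxy
    exact mul_sub_le_image_sub_of_le_deriv hdiff
      (fun t => by rw [(hd t).deriv]; exact (bnd r K h0 h1 hK hrK t).1) hxy
  have hcont : Continuous (fun t : ℝ => -2 * (1 - (r : ℂ) * Complex.exp (t * I)).arg) := by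
    have := hdiff.continuous.sub continuous_id
    refine this.congr (fun t => ?_)
    simp
  have hKK : K ^ 2 * (1 / K) = K := by field_simp
  refine ⟨hcont, ?_, ?_, ?_, ?_, ?_⟩
  · intro t
    have : Complex.exp (((t + 2 * Real.pi : ℝ) : ℂ) * I) = Complex.exp (t * I) := by
      push_cast
      rw [add_mul, Complex.exp_add, Complex.exp_two_pi_mul_I, mul_one]
    simp only [this]
  · apply strictMono_of_deriv_pos
    intro t
    rw [(hd t).deriv]
    exact lt_of_lt_of_le (by positivity) (bnd r K h0 h1 hK hrK t).1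
  · intro a t ht _
    have u1 := hup a (a + t) (by linarith)
    have u2 := hlo (a - t) a (by linarith)
    have u3 := mul_le_mul_of_nonneg_left u2 (by positivity : (0 : ℝ) ≤ K ^ 2)
    rw [← mul_assoc, hKK] at u3
    refine le_trans u1 (le_trans ?_ u3)
    apply le_of_eq; ring
  · intro a t ht _
    have u1 := hup (a - t) a (by linarith)
    have u2 := hlo a (a + t) (by linarith)
    have u3 := mul_le_mul_of_nonneg_left u2 (by positivity : (0 : ℝ) ≤ K ^ 2)
    rw [← mul_assoc, hKK] at u3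
    refine le_trans u1 (le_trans ?_ u3)
    apply le_of_eq; ring
  · have hodd : ∀ t : ℝ, -2 * (1 - (r : ℂ) * Complex.exp (((-t : ℝ) : ℂ) * I)).arg =
        -(-2 * (1 - (r : ℂ) * Complex.exp (t * I)).arg) := by
      intro t
      have e1 : 1 - (r : ℂ) * Complex.exp (((-t : ℝ) : ℂ) * I) =
          (starRingEnd ℂ) (1 - (r : ℂ) * Complex.exp (t * I)) := by
        simp [← Complex.exp_conj]
      rw [e1, Complex.arg_conj, if_neg]
      · ring
      · exact (Complex.mem_slitPlane_iff_arg.1 (slit r h0 h1 _ (exp_mem t))).1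
    have h5 := intervalIntegral.integral_comp_neg (a := -Real.pi) (b := Real.pi)
      (fun t : ℝ => -2 * (1 - (r : ℂ) * Complex.exp (t * I)).arg)
    rw [neg_neg] at h5
    have h6 : (∫ t in (-Real.pi)..Real.pi, -2 * (1 - (r : ℂ) * Complex.exp (((-t : ℝ) : ℂ) * I)).arg)
        = -∫ t in (-Real.pi)..Real.pi, -2 * (1 - (r : ℂ) * Complex.exp (t * I)).arg := by
      rw [← intervalIntegral.integral_neg]
      congr 1
      funext t
      exact hodd t
    rw [h6] at h5
    linarith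

lemma member (r K : ℝ) (h0 : 0 ≤ r) (h1 : r < 1) (hK : 1 ≤ K) (hrK : K * (1 - r) = 1 + r) :
    IsQSStarlike (K ^ 2) (fun z => z / (1 - (r : ℂ) * z) ^ 2) ∧
    A2 (fun z => z / (1 - (r : ℂ) * z) ^ 2) = 2 * r := by
  have hs : ∀ z ∈ closedBall (0 : ℂ) 1, 1 - (r : ℂ) * z ∈ slitPlane := slit r h0 h1
  have hqd : ∀ z ∈ ball (0 : ℂ) 1, HasDerivAt (fun z => -2 * Complex.log (1 - (r : ℂ) * z))
      (-2 * (-((r : ℂ) * 1) / (1 - (r : ℂ) * z))) z := by
    intro z hz
    exact ((((hasDerivAt_id z).const_mul (r : ℂ)).const_sub 1).clog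
      (hs z (ball_subset_closedBall hz))).const_mul (-2)
  have hq : DifferentiableOn ℂ (fun z => -2 * Complex.log (1 - (r : ℂ) * z)) (ball 0 1) :=
    fun z hz => (hqd z hz).differentiableAt.differentiableWithinAt
  have hF : ∀ z ∈ ball (0 : ℂ) 1, z / (1 - (r : ℂ) * z) ^ 2 =
      z * Complex.exp (-2 * Complex.log (1 - (r : ℂ) * z)) := by
    intro z hz
    have hne : 1 - (r : ℂ) * z ≠ 0 := Complex.slitPlane_ne_zero (hs z (ball_subset_closedBall hz))
    have e : (-2 : ℂ) * Complex.log (1 - (r : ℂ) * z) =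
      -(Complex.log (1 - (r : ℂ) * z) + Complex.log (1 - (r : ℂ) * z)) := by ring
    rw [e, Complex.exp_neg, Complex.exp_add, Complex.exp_log hne, div_eq_mul_inv, sq]
  constructor
  · refine ⟨_, fun z => -2 * Complex.log (1 - (r : ℂ) * z),
      fun z => -2 * (1 - (r : ℂ) * z).arg, isQS r K h0 h1 hK hrK, hq, by simp, ?_, ?_, ?_, hF⟩
    · intro z hz
      apply ContinuousAt.continuousWithinAt
      have ha : ContinuousAt Complex.arg (1 - (r : ℂ) * z) := Complex.continuousAt_arg (hs z hz)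
      have hb : ContinuousAt (fun z : ℂ => 1 - (r : ℂ) * z) z := by fun_prop
      have hc : ContinuousAt (fun z : ℂ => (1 - (r : ℂ) * z).arg) z :=
        ContinuousAt.comp (f := fun z : ℂ => 1 - (r : ℂ) * z) ha hb
      exact hc.const_mul (-2)
    · intro t; rfl
    · intro z hz
      simp [Complex.log_im]
  · rw [A2_eq hq (by simp) hF, (hqd 0 (mem_ball_self one_pos)).deriv]
    simp


lemma interiorG (B : ℝ) (hB : 0 ≤ B) (G : ℂ → ℂ) (D : ℂ → ℝ)
    (hG : DifferentiableOn ℂ G (ball 0 1)) (hD : ContinuousOn D (closedBall 0 1))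
    (hGD : ∀ z ∈ ball (0 : ℂ) 1, (G z).im = D z) (hG0 : G 0 = 0)
    (hb : ∀ t : ℝ, D (Complex.exp (t * I)) ≤ B) (z : ℂ) (hz : z ∈ ball (0 : ℂ) 1) :
    (G z).im ≤ B := by
  obtain ⟨z0, hz0, hmax⟩ := (isCompact_closedBall (0 : ℂ) 1).exists_isMaxOn
    ⟨0, mem_closedBall_self zero_le_one⟩ hD
  have hmax' : ∀ w ∈ closedBall (0 : ℂ) 1, D w ≤ D z0 := fun w hw => hmax hw
  have hval : D z0 ≤ B := by
    by_cases h1 : ‖z0‖ = 1
    · have e1 : Complex.exp ((z0.arg : ℂ) * I) = z0 := by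
        have := Complex.norm_mul_exp_arg_mul_I z0
        rw [h1] at this; simpa using this
      have h2 := hb z0.arg
      rwa [e1] at h2
    · have hz0b : z0 ∈ ball (0 : ℂ) 1 := by
        rw [mem_closedBall_zero_iff] at hz0
        rw [mem_ball_zero_iff]
        exact lt_of_le_of_ne hz0 h1
      have hf : DifferentiableOn ℂ (fun w => Complex.exp (-I * G w)) (ball 0 1) :=
        (hG.const_mul _).cexp
      have hn : ∀ w ∈ ball (0 : ℂ) 1, ‖Complex.exp (-I * G w)‖ = Real.exp (D w) := by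
        intro w hw
        rw [Complex.norm_exp]
        congr 1
        rw [← hGD w hw]
        simp
      have hm : IsMaxOn (norm ∘ fun w => Complex.exp (-I * G w)) (ball 0 1) z0 := by
        intro w hw
        show ‖_‖ ≤ ‖_‖
        rw [hn w hw, hn z0 hz0b]
        exact Real.exp_le_exp.2 (hmax' w (ball_subset_closedBall hw))
      have he := Complex.norm_eqOn_of_isPreconnected_of_isMaxOn
        (convex_ball (0 : ℂ) 1).isPreconnected isOpen_ball hf hz0b hm
      have h0 := he (mem_ball_self one_pos : (0 : ℂ) ∈ ball (0 : ℂ) 1)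
      have h00 : Real.exp (D 0) = Real.exp (D z0) := by
        rw [← hn 0 (mem_ball_self one_pos), ← hn z0 hz0b]
        exact h0
      have h3 := Real.exp_injective h00
      rw [← h3, ← hGD 0 (mem_ball_self one_pos), hG0]
      simpa using hB
  rw [hGD z hz]
  exact (hmax' z (ball_subset_closedBall hz)).trans hval

lemma stripG (κ : ℝ) (hκ : 0 < κ) (G : ℂ → ℂ) (hG : DifferentiableOn ℂ G (ball 0 1))
    (hG0 : G 0 = 0) (h : ∀ z ∈ ball (0 : ℂ) 1, |(G z).im| < Real.pi * κ) :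
    ‖deriv G 0‖ ≤ 4 * κ := by
  have hz0 : (0 : ℂ) ∈ ball (0 : ℂ) 1 := mem_ball_self one_pos
  set p : ℂ → ℂ := fun z => Complex.exp (G z / (2 * κ)) with hp
  have hpd : DifferentiableOn ℂ p (ball 0 1) := (hG.div_const _).cexp
  have hpre : ∀ z ∈ ball (0 : ℂ) 1, 0 < (p z).re := by
    intro z hz
    have h1 := h z hz
    have e : (G z / (2 * κ)).im = (G z).im / (2 * κ) := by
      have : (2 * (κ : ℂ)) = ((2 * κ : ℝ) : ℂ) := by push_cast; ring
      rw [this, Complex.div_ofReal_im]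
    simp only [hp]
    rw [Complex.exp_re, e]
    apply mul_pos (Real.exp_pos _)
    apply Real.cos_pos_of_mem_Ioo
    rw [abs_lt] at h1
    constructor
    · rw [lt_div_iff₀ (by positivity)]; linarith [h1.1]
    · rw [div_lt_iff₀ (by positivity)]; linarith [h1.2]
  have hp1 : ∀ z ∈ ball (0 : ℂ) 1, p z + 1 ≠ 0 := by
    intro z hz h0
    have := congrArg Complex.re h0
    simp at this
    linarith [hpre z hz]
  set B : ℂ → ℂ := fun z => (p z - 1) / (p z + 1) with hB
  have hBd : DifferentiableOn ℂ B (ball 0 1) := (hpd.sub_const 1).div (hpd.add_const 1) hp1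
  have hp0 : p 0 = 1 := by simp [hp, hG0]
  have hB0 : B 0 = 0 := by simp [hB, hp0]
  have hmap : MapsTo B (ball 0 1) (ball (B 0) 1) := by
    intro z hz
    rw [hB0, mem_ball_zero_iff]
    simp only [hB]
    rw [norm_div, div_lt_one (norm_pos_iff.2 (hp1 z hz))]
    apply lt_of_pow_lt_pow_left₀ 2 (norm_nonneg _)
    rw [Complex.sq_norm, Complex.sq_norm, Complex.normSq_apply, Complex.normSq_apply]
    simp
    nlinarith [hpre z hz]
  have hS := Complex.norm_deriv_le_div_of_mapsTo_ball hBd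
    (hmap.mono_right ball_subset_closedBall) one_pos
  have hqd : HasDerivAt G (deriv G 0) 0 :=
    (hG.differentiableAt (isOpen_ball.mem_nhds hz0)).hasDerivAt
  have hpd0 : HasDerivAt p (p 0 * (deriv G 0 / (2 * κ))) 0 := (hqd.div_const _).cexp
  have hBd0 : HasDerivAt B (((p 0 * (deriv G 0 / (2 * κ))) * (p 0 + 1) -
      (p 0 - 1) * (p 0 * (deriv G 0 / (2 * κ)))) / (p 0 + 1) ^ 2) 0 :=
    (hpd0.sub_const 1).div (hpd0.add_const 1) (hp1 0 hz0)
  have hval : deriv B 0 = deriv G 0 / (4 * κ) := by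
    rw [hBd0.deriv, hp0]
    have : (κ : ℂ) ≠ 0 := by exact_mod_cast hκ.ne'
    field_simp
    ring
  rw [hval, norm_div] at hS
  have hn : ‖(4 * (κ : ℂ))‖ = 4 * κ := by
    rw [norm_mul, Complex.norm_real, Real.norm_of_nonneg hκ.le]; simp
  rw [hn, div_one, div_le_one (by positivity)] at hS
  exact hS

lemma second (M κ : ℝ) (hM : 1 ≤ M) (hκ : κ = (M - 1) / (M + 1)) (v : ℝ → ℝ) (hv : IsQS M v)
    (a : ℝ) : |v (a + 3 * Real.pi / 4) - 2 * v a + v (a - 3 * Real.pi / 4)| ≤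
      Real.pi * (κ * (3 / 2 + κ - κ ^ 2 / 2)) := by
  have hpi := Real.pi_pos
  have hM1 : 0 < M + 1 := by linarith
  have hκM : κ * (M + 1) = M - 1 := by rw [hκ]; field_simp
  have hκ0 : 0 ≤ κ := by rw [hκ]; exact div_nonneg (by linarith) hM1.le
  have hκi : (1 - κ) * (M + 1) = 2 := by linarith
  have h1 := hv.right_le a (3 * Real.pi / 4) (by positivity) (by linarith)
  have h2 := hv.left_le a (3 * Real.pi / 4) (by positivity) (by linarith)
  -- the increment over a quarter of the circle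
  set b := a + 3 * Real.pi / 4 with hb
  have h3 : v (a - 3 * Real.pi / 4) = v (b + Real.pi / 2) := by
    have := hv.periodic (a - 3 * Real.pi / 4)
    rw [← this]; congr 1; rw [hb]; ring
  have h4 := hv.right_le (b + Real.pi / 2) (Real.pi / 2) (by positivity) (by linarith)
  have e5 : b + Real.pi / 2 + Real.pi / 2 = b + Real.pi := by ring
  have e6 : b + Real.pi / 2 - Real.pi / 2 = b := by ring
  rw [e5, e6] at h4
  have h5 := (abs_le.1 (half M hM v hv b)).1
  rw [← hκ] at h5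
  -- x ≥ 2π/(M+1)^2
  set x := v (b + Real.pi / 2) - v b + Real.pi / 2 with hx
  have h6 : Real.pi * (1 - κ) ≤ (M + 1) * x := by
    rw [hx]; nlinarith
  have h7 : Real.pi * (1 - κ) ^ 2 ≤ 2 * x := by
    have h1k : 0 ≤ 1 - κ := by nlinarith
    calc Real.pi * (1 - κ) ^ 2 = (1 - κ) * (Real.pi * (1 - κ)) := by ring
      _ ≤ (1 - κ) * ((M + 1) * x) := mul_le_mul_of_nonneg_left h6 h1k
      _ = ((1 - κ) * (M + 1)) * x := by ring
      _ = 2 * x := by rw [hκi]
  have h8 : v b - v (a - 3 * Real.pi / 4) ≤ Real.pi * (κ - κ ^ 2 / 2) := by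
    rw [h3]
    have : v b - v (b + Real.pi / 2) = Real.pi / 2 - x := by rw [hx]; ring
    rw [this]; nlinarith
  have e9 : Real.pi * (κ * (3 / 2 + κ - κ ^ 2 / 2)) =
      κ * (2 * (3 * Real.pi / 4) + Real.pi * (κ - κ ^ 2 / 2)) := by ring
  rw [e9]
  have h10 : κ * (2 * (3 * Real.pi / 4) + (v b - v (a - 3 * Real.pi / 4))) ≤
      κ * (2 * (3 * Real.pi / 4) + Real.pi * (κ - κ ^ 2 / 2)) :=
    mul_le_mul_of_nonneg_left (by linarith) hκ0
  refine le_trans ?_ h10
  rw [abs_le]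
  constructor
  · have : 0 ≤ (M + 1) * (κ * (2 * (3 * Real.pi / 4) + (v b - v (a - 3 * Real.pi / 4))) +
        (v b - 2 * v a + v (a - 3 * Real.pi / 4))) := by
      have e : (M + 1) * (κ * (2 * (3 * Real.pi / 4) + (v b - v (a - 3 * Real.pi / 4))) +
        (v b - 2 * v a + v (a - 3 * Real.pi / 4))) =
        (κ * (M + 1)) * (2 * (3 * Real.pi / 4) + (v b - v (a - 3 * Real.pi / 4))) +
        (M + 1) * (v b - 2 * v a + v (a - 3 * Real.pi / 4)) := by ring
      rw [e, hκM]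
      nlinarith
    have := nonneg_of_mul_nonneg_right this hM1
    linarith
  · have : 0 ≤ (M + 1) * (κ * (2 * (3 * Real.pi / 4) + (v b - v (a - 3 * Real.pi / 4))) -
        (v b - 2 * v a + v (a - 3 * Real.pi / 4))) := by
      have e : (M + 1) * (κ * (2 * (3 * Real.pi / 4) + (v b - v (a - 3 * Real.pi / 4))) -
        (v b - 2 * v a + v (a - 3 * Real.pi / 4))) =
        (κ * (M + 1)) * (2 * (3 * Real.pi / 4) + (v b - v (a - 3 * Real.pi / 4))) -
        (M + 1) * (v b - 2 * v a + v (a - 3 * Real.pi / 4)) := by ring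
      rw [e, hκM]
      nlinarith
    have := nonneg_of_mul_nonneg_right this hM1
    linarith

theorem upper2 (M κ : ℝ) (hM : 1 ≤ M) (hκ : κ = (M - 1) / (M + 1)) (F : ℂ → ℂ)
    (hF : IsQSStarlike M F) :
    ‖A2 F‖ ≤ (2 - √2) * (κ * (1 + κ) * (3 - κ)) := by
  obtain ⟨v, q, U, hv, hq, h0, hU, hb, hi, hFz⟩ := hF
  rw [A2_eq hq h0 hFz]
  have hM1 : 0 < M + 1 := by linarith
  have hκ0 : 0 ≤ κ := by rw [hκ]; exact div_nonneg (by linarith) hM1.le
  have hκ1 : κ < 1 := by rw [hκ, div_lt_one hM1]; linarith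
  set β : ℝ := κ * (3 / 2 + κ - κ ^ 2 / 2) with hβ
  have hβ0 : 0 ≤ β := by
    rw [hβ]; apply mul_nonneg hκ0; nlinarith
  set s : ℝ := 3 * Real.pi / 4 with hs
  set e1 : ℂ := Complex.exp ((s : ℝ) * I) with he1
  set e2 : ℂ := Complex.exp (((-s : ℝ) : ℂ) * I) with he2
  have n1 : ‖e1‖ = 1 := Complex.norm_exp_ofReal_mul_I s
  have n2 : ‖e2‖ = 1 := Complex.norm_exp_ofReal_mul_I (-s)
  have b1 : ∀ e : ℂ, ‖e‖ = 1 → MapsTo (fun z => z * e) (ball (0 : ℂ) 1) (ball (0 : ℂ) 1) := by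
    intro e he z hz
    simpa [he] using hz
  have b2 : ∀ e : ℂ, ‖e‖ = 1 →
      MapsTo (fun z => z * e) (closedBall (0 : ℂ) 1) (closedBall (0 : ℂ) 1) := by
    intro e he z hz
    simpa [he] using hz
  have hz0 : (0 : ℂ) ∈ ball (0 : ℂ) 1 := mem_ball_self one_pos
  have dq : ∀ e : ℂ, ‖e‖ = 1 → DifferentiableOn ℂ (fun z => q (z * e)) (ball 0 1) := by
    intro e he
    exact hq.comp (by fun_prop) (b1 e he)
  have cU : ∀ e : ℂ, ‖e‖ = 1 → ContinuousOn (fun z => U (z * e)) (closedBall 0 1) := by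
    intro e he
    exact hU.comp (by fun_prop) (b2 e he)
  set G : ℂ → ℂ := fun z => q (z * e1) - 2 * q z + q (z * e2) with hG
  set D : ℂ → ℝ := fun z => U (z * e1) - 2 * U z + U (z * e2) with hD
  have hGd : DifferentiableOn ℂ G (ball 0 1) :=
    ((dq e1 n1).sub (hq.const_mul 2)).add (dq e2 n2)
  have hDc : ContinuousOn D (closedBall 0 1) :=
    ((cU e1 n1).sub (continuousOn_const.mul hU)).add (cU e2 n2)
  have hG0 : G 0 = 0 := by simp [hG, h0]
  have hGD : ∀ z ∈ ball (0 : ℂ) 1, (G z).im = D z := by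
    intro z hz
    simp only [hG, hD]
    rw [← hi _ (b1 e1 n1 hz), ← hi z hz, ← hi _ (b1 e2 n2 hz)]
    simp
  have hDb : ∀ t : ℝ, D (Complex.exp (t * I)) =
      v (t + 3 * Real.pi / 4) - 2 * v t + v (t - 3 * Real.pi / 4) := by
    intro t
    simp only [hD]
    have u1 : Complex.exp (t * I) * e1 = Complex.exp (((t + 3 * Real.pi / 4 : ℝ) : ℂ) * I) := by
      rw [he1, ← Complex.exp_add, hs]; congr 1; push_cast; ring
    have u2 : Complex.exp (t * I) * e2 = Complex.exp (((t - 3 * Real.pi / 4 : ℝ) : ℂ) * I) := by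
      rw [he2, ← Complex.exp_add, hs]; congr 1; push_cast; ring
    rw [u1, u2, hb, hb, hb]
  have hDabs : ∀ t : ℝ, |D (Complex.exp (t * I))| ≤ Real.pi * β := by
    intro t
    rw [hDb]
    exact second M κ hM hκ v hv t
  have hβp : 0 ≤ Real.pi * β := mul_nonneg Real.pi_pos.le hβ0
  have key : ∀ z ∈ ball (0 : ℂ) 1, |(G z).im| ≤ Real.pi * β := by
    intro z hz
    rw [abs_le]
    constructor
    · have := interiorG (Real.pi * β) hβp (fun z => -G z) (fun z => -D z) hGd.neg hDc.neg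
        (fun z hz => by simp [hGD z hz]) (by simp [hG0])
        (fun t => by have := (abs_le.1 (hDabs t)).1; linarith) z hz
      simp at this
      linarith
    · exact interiorG (Real.pi * β) hβp G D hGd hDc hGD hG0
        (fun t => (abs_le.1 (hDabs t)).2) z hz
  have hle : ‖deriv G 0‖ ≤ 4 * β := by
    apply le_of_forall_pos_le_add
    intro ε hε
    have := stripG (β + ε / 4) (by positivity) G hGd hG0 (fun z hz =>
      lt_of_le_of_lt (key z hz) (by
        have := Real.pi_pos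
        nlinarith))
    calc ‖deriv G 0‖ ≤ 4 * (β + ε / 4) := this
      _ = 4 * β + ε := by ring
  have hqd : HasDerivAt q (deriv q 0) 0 :=
    (hq.differentiableAt (isOpen_ball.mem_nhds hz0)).hasDerivAt
  have hqe : ∀ e : ℂ, HasDerivAt (fun z => q (z * e)) (deriv q 0 * e) 0 := by
    intro e
    have h1 : HasDerivAt q (deriv q 0) (0 * e) := by simpa using hqd
    have h2 : HasDerivAt (fun z : ℂ => z * e) (1 * e) 0 := (hasDerivAt_id (0 : ℂ)).mul_const e
    have := h1.comp (0 : ℂ) h2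
    simpa [Function.comp_def] using this
  have hGder : HasDerivAt G (deriv q 0 * e1 - 2 * deriv q 0 + deriv q 0 * e2) 0 :=
    ((hqe e1).sub (hqd.const_mul 2)).add (hqe e2)
  have hcos : e1 + e2 = -(√2 : ℝ) := by
    have c1 : e1 + e2 = 2 * Complex.cos (s : ℝ) := by
      rw [Complex.cos, he1, he2]; push_cast; ring_nf
    have c2 : Real.cos s = -(√2 / 2) := by
      rw [hs, show 3 * Real.pi / 4 = Real.pi - Real.pi / 4 by ring, Real.cos_pi_sub,
        Real.cos_pi_div_four]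
    rw [c1, ← Complex.ofReal_cos, c2]; push_cast; ring
  have hGval : deriv G 0 = -(((2 + √2 : ℝ)) : ℂ) * deriv q 0 := by
    rw [hGder.deriv]
    have : deriv q 0 * e1 - 2 * deriv q 0 + deriv q 0 * e2 = (e1 + e2 - 2) * deriv q 0 := by ring
    rw [this, hcos]; push_cast; ring
  rw [hGval, norm_mul, norm_neg, Complex.norm_real, Real.norm_of_nonneg (by positivity)] at hle
  have hsq : √2 * √2 = 2 := Real.mul_self_sqrt (by norm_num)
  have hs2 : √2 < 2 := by nlinarith [Real.sqrt_nonneg 2]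
  have h2s : 0 < 2 - √2 := by linarith
  have hfin := mul_le_mul_of_nonneg_left hle h2s.le
  have e10 : (2 - √2) * ((2 + √2) * ‖deriv q 0‖) = 2 * ‖deriv q 0‖ := by
    calc (2 - √2) * ((2 + √2) * ‖deriv q 0‖) = (4 - √2 * √2) * ‖deriv q 0‖ := by ring
      _ = 2 * ‖deriv q 0‖ := by rw [hsq]; ring
  rw [e10] at hfin
  have e11 : (2 - √2) * (4 * β) = 2 * ((2 - √2) * (κ * (1 + κ) * (3 - κ))) := by
    rw [hβ]; ring
  rw [e11] at hfin
  linarith


lemma poly_aux (x : ℝ) (h0 : 0 ≤ x) (h1 : x ≤ 83 / 100) :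
    0 ≤ 355 / 1000 - 3 / 2 * x + 2 * x ^ 2 - x ^ 4 := by
  by_cases h2 : x ≤ 1 / 2
  · nlinarith [mul_nonneg h0 (sub_nonneg.2 h2), sq_nonneg (x - 43 / 100), sq_nonneg (x ^ 2 - 1 / 5), mul_nonneg (mul_nonneg h0 h0) (sub_nonneg.2 h2), sq_nonneg (x * (x - 1/2))]
  · push Not at h2
    nlinarith [mul_nonneg (sub_nonneg.2 h2.le) (sub_nonneg.2 h1), sq_nonneg (x ^ 2 - 1 / 2), mul_nonneg (mul_nonneg (sub_nonneg.2 h2.le) (sub_nonneg.2 h1)) h0, mul_nonneg (mul_nonneg (sub_nonneg.2 h2.le) (sub_nonneg.2 h1)) (mul_nonneg h0 h0)]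

lemma cos_lin (t : ℝ) (h0 : 0 ≤ t) (h1 : t ≤ Real.pi) : 1 - Real.cos t ≤ 3 / 4 * t := by
  by_cases h : t ≤ 3 / 2
  · have := Real.one_sub_sq_div_two_le_cos (x := t)
    nlinarith
  · push Not at h
    have hpi := Real.pi_gt_d2
    have hpi2 := Real.pi_lt_d2
    obtain ⟨x, hx⟩ : ∃ x : ℝ, x = (Real.pi - t) / 2 := ⟨_, rfl⟩
    have hx0 : 0 ≤ x := by rw [hx]; linarith
    have hx1 : x ≤ 83 / 100 := by rw [hx]; linarith
    have hc : Real.cos t = -(1 - 2 * Real.sin x ^ 2) := by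
      have e : t = Real.pi - 2 * x := by rw [hx]; ring
      rw [e, Real.cos_pi_sub, Real.cos_two_mul]
      have := Real.sin_sq_add_cos_sq x
      linarith
    have hs : x - x ^ 3 / 4 ≤ Real.sin x := by
      rcases hx0.eq_or_lt with h2 | h2
      · rw [← h2]; simp
      · have h3 := Real.sin_gt_sub_cube h2
        have h4 : 0 < x ^ 3 := pow_pos h2 3
        linarith
    have hs0 : 0 ≤ x - x ^ 3 / 4 := by nlinarith [mul_nonneg hx0 hx0, mul_nonneg (mul_nonneg hx0 hx0) hx0]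
    have hs2 : (x - x ^ 3 / 4) ^ 2 ≤ Real.sin x ^ 2 := by
      apply pow_le_pow_left₀ hs0 hs
    have hp := poly_aux x hx0 hx1
    have ht : t = Real.pi - 2 * x := by rw [hx]; ring
    rw [hc]
    have e2 : (x - x ^ 3 / 4) ^ 2 = x ^ 2 - x ^ 4 / 2 + x ^ 6 / 16 := by ring
    have hx6 : 0 ≤ x ^ 6 := by positivity
    nlinarith

lemma cs_aux (a t κ R : ℝ) (hR : 0 ≤ R) (hR2 : R ^ 2 = 9 / 16 + κ ^ 2)
    (h0 : 0 ≤ t) (h1 : t ≤ Real.pi) (σ : ℝ) (hσ : σ ^ 2 = 1) :
    σ * Real.sin a * (1 - Real.cos t) - κ * (Real.cos a * Real.sin t) ≤ R * t := by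
  refine (abs_le_of_sq_le_sq' ?_ (mul_nonneg hR h0)).2
  have hc := cos_lin t h0 h1
  have hc0 : 0 ≤ 1 - Real.cos t := by linarith [Real.cos_le_one t]
  have hs : Real.sin t ^ 2 ≤ t ^ 2 := by
    have := Real.sin_sq_le_sq (x := t)
    exact this
  have hA := Real.sin_sq_add_cos_sq a
  have h2 : (1 - Real.cos t) ^ 2 ≤ 9 / 16 * t ^ 2 := by nlinarith
  have h3 : κ ^ 2 * Real.sin t ^ 2 ≤ κ ^ 2 * t ^ 2 := mul_le_mul_of_nonneg_left hs (sq_nonneg κ)
  have h4 : (R * t) ^ 2 = 9 / 16 * t ^ 2 + κ ^ 2 * t ^ 2 := by rw [mul_pow, hR2]; ring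
  rw [h4]
  have h5 : (σ * Real.sin a * (1 - Real.cos t) - κ * (Real.cos a * Real.sin t)) ^ 2 +
      (σ * Real.cos a * (1 - Real.cos t) + κ * (Real.sin a * Real.sin t)) ^ 2 =
      (1 - Real.cos t) ^ 2 + κ ^ 2 * Real.sin t ^ 2 := by
    have : (σ * Real.sin a * (1 - Real.cos t) - κ * (Real.cos a * Real.sin t)) ^ 2 +
      (σ * Real.cos a * (1 - Real.cos t) + κ * (Real.sin a * Real.sin t)) ^ 2 =
      (Real.sin a ^ 2 + Real.cos a ^ 2) * (σ ^ 2 * (1 - Real.cos t) ^ 2 + κ ^ 2 * Real.sin t ^ 2) := by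
      ring
    rw [this, hA, hσ]; ring
  nlinarith [sq_nonneg (σ * Real.cos a * (1 - Real.cos t) + κ * (Real.sin a * Real.sin t))]

lemma isQS2 (M κ R ε : ℝ) (hM : 1 ≤ M) (hκ : κ = (M - 1) / (M + 1))
    (hR : R = √(9 / 16 + κ ^ 2)) (hε : ε = κ / R) : IsQS M (fun t => ε * Real.sin t) := by
  have hM1 : 0 < M + 1 := by linarith
  have hκM : κ * (M + 1) = M - 1 := by rw [hκ]; field_simp
  have hκ0 : 0 ≤ κ := by rw [hκ]; exact div_nonneg (by linarith) hM1.le
  have hRpos : 0 < R := by rw [hR]; positivity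
  have hR2 : R ^ 2 = 9 / 16 + κ ^ 2 := by rw [hR]; exact Real.sq_sqrt (by positivity)
  have hε0 : 0 ≤ ε := by rw [hε]; exact div_nonneg hκ0 hRpos.le
  have hεR : ε * R = κ := by rw [hε]; field_simp
  have hκR : κ < R := by nlinarith
  have hε1 : ε < 1 := by rw [hε, div_lt_one hRpos]; exact hκR
  have hd : ∀ t, HasDerivAt (fun t : ℝ => t + ε * Real.sin t) (1 + ε * Real.cos t) t := fun t =>
    (hasDerivAt_id t).add ((Real.hasDerivAt_sin t).const_mul ε)
  refine ⟨by fun_prop, ?_, ?_, ?_, ?_, ?_⟩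
  · intro t; simp
  · apply strictMono_of_deriv_pos
    intro t
    rw [(hd t).deriv]
    have := Real.neg_one_le_cos t
    nlinarith
  · intro a t ht htp
    have h1 := cs_aux a t κ R hRpos.le hR2 ht.le htp (-1) (by norm_num)
    have h2 := mul_le_mul_of_nonneg_left h1 hε0
    have h3 : ε * (R * t) = κ * t := by rw [← mul_assoc, hεR]
    rw [h3] at h2
    have h4 := mul_le_mul_of_nonneg_right h2 hM1.le
    have h5 : κ * t * (M + 1) = (M - 1) * t := by rw [← hκM]; ring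
    have h6 : ε * (-1 * Real.sin a * (1 - Real.cos t) - κ * (Real.cos a * Real.sin t)) * (M + 1) =
        -(ε * (Real.sin a * (1 - Real.cos t))) * (M + 1) -
          (κ * (M + 1)) * (ε * (Real.cos a * Real.sin t)) := by ring
    rw [h5, h6, hκM] at h4
    simp only [Real.sin_add, Real.sin_sub]
    nlinarith
  · intro a t ht htp
    have h1 := cs_aux a t κ R hRpos.le hR2 ht.le htp 1 (by norm_num)
    have h2 := mul_le_mul_of_nonneg_left h1 hε0
    have h3 : ε * (R * t) = κ * t := by rw [← mul_assoc, hεR]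
    rw [h3] at h2
    have h4 := mul_le_mul_of_nonneg_right h2 hM1.le
    have h5 : κ * t * (M + 1) = (M - 1) * t := by rw [← hκM]; ring
    have h6 : ε * (1 * Real.sin a * (1 - Real.cos t) - κ * (Real.cos a * Real.sin t)) * (M + 1) =
        (ε * (Real.sin a * (1 - Real.cos t))) * (M + 1) -
          (κ * (M + 1)) * (ε * (Real.cos a * Real.sin t)) := by ring
    rw [h5, h6, hκM] at h4
    simp only [Real.sin_add, Real.sin_sub]
    nlinarith
  · rw [intervalIntegral.integral_const_mul, integral_sin]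
    simp

lemma member2 (M κ R ε : ℝ) (hM : 1 ≤ M) (hκ : κ = (M - 1) / (M + 1))
    (hR : R = √(9 / 16 + κ ^ 2)) (hε : ε = κ / R) :
    IsQSStarlike M (fun z => z * Complex.exp ((ε : ℂ) * z)) ∧
    A2 (fun z => z * Complex.exp ((ε : ℂ) * z)) = ε := by
  have hqd : HasDerivAt (fun z : ℂ => (ε : ℂ) * z) ((ε : ℂ) * 1) 0 :=
    (hasDerivAt_id (0 : ℂ)).const_mul (ε : ℂ)
  have hq : DifferentiableOn ℂ (fun z : ℂ => (ε : ℂ) * z) (ball 0 1) := by fun_prop
  constructor
  · refine ⟨_, fun z => (ε : ℂ) * z, fun z => ε * z.im, isQS2 M κ R ε hM hκ hR hε, hq, by simp,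
      by fun_prop, ?_, ?_, fun z _ => rfl⟩
    · intro t
      show ε * (Complex.exp (t * I)).im = _
      rw [Complex.exp_ofReal_mul_I_im]
    · intro z _
      simp
  · rw [A2_eq hq (by simp) (fun z _ => rfl), hqd.deriv, mul_one]


lemma limaux (c : ℝ → ℝ)
    (h : ∀ M κ : ℝ, 1 ≤ M → κ = (M - 1) / (M + 1) →
      κ / √(9 / 16 + κ ^ 2) ≤ c M ∧ c M ≤ (2 - √2) * (κ * (1 + κ) * (3 - κ))) (δ : ℝ) (hδ : 0 < δ) :
    ∀ᶠ M in nhdsWithin (1 : ℝ) (Ioi 1), (2 / 3 - δ) * (M - 1) ≤ c M ∧ c M ≤ (3 * (2 - √2) / 2 + δ) * (M - 1) := by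
  have hL : Filter.Tendsto (fun M : ℝ => 1 / ((M + 1) * √(9 / 16 + ((M - 1) / (M + 1)) ^ 2))) (nhds 1)
      (nhds (2 / 3)) := by
    have h1 : ContinuousAt (fun M : ℝ => 1 / ((M + 1) * √(9 / 16 + ((M - 1) / (M + 1)) ^ 2))) 1 := by
      apply ContinuousAt.div continuousAt_const
      · apply ContinuousAt.mul (by fun_prop)
        apply ContinuousAt.sqrt
        apply ContinuousAt.add continuousAt_const
        apply ContinuousAt.pow
        apply ContinuousAt.div (by fun_prop) (by fun_prop) (by norm_num)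
      · positivity
    have h2 := h1.tendsto
    have h3 : √(9 / 16 : ℝ) = 3 / 4 := by
      rw [show (9 / 16 : ℝ) = (3 / 4) ^ 2 by norm_num]; exact Real.sqrt_sq (by norm_num)
    have e : (1 : ℝ) / ((1 + 1) * √(9 / 16 + ((1 - 1) / (1 + 1)) ^ 2)) = 2 / 3 := by
      simp only [sub_self, zero_div]
      rw [show (9 / 16 : ℝ) + 0 ^ 2 = 9 / 16 by norm_num, h3]; norm_num
    rwa [e] at h2
  have hU : Filter.Tendsto (fun M : ℝ => (2 - √2) * ((1 + (M - 1) / (M + 1)) * (3 - (M - 1) / (M + 1))) /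
      (M + 1)) (nhds 1) (nhds (3 * (2 - √2) / 2)) := by
    have h1 : ContinuousAt (fun M : ℝ => (2 - √2) * ((1 + (M - 1) / (M + 1)) *
        (3 - (M - 1) / (M + 1))) / (M + 1)) 1 := by
      have hq : ContinuousAt (fun M : ℝ => (M - 1) / (M + 1)) 1 :=
        ContinuousAt.div (by fun_prop) (by fun_prop) (by norm_num)
      apply ContinuousAt.div _ (by fun_prop) (by norm_num)
      exact continuousAt_const.mul ((continuousAt_const.add hq).mul (continuousAt_const.sub hq))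
    have h2 := h1.tendsto
    have e : (2 - √2) * ((1 + ((1 : ℝ) - 1) / (1 + 1)) * (3 - (1 - 1) / (1 + 1))) / (1 + 1) =
        3 * (2 - √2) / 2 := by
      simp only [sub_self, zero_div]; ring
    rwa [e] at h2
  have hL' := (hL.mono_left nhdsWithin_le_nhds : Filter.Tendsto _ (nhdsWithin (1 : ℝ) (Ioi 1)) _).eventually
    (lt_mem_nhds (show 2 / 3 - δ < 2 / 3 by linarith))
  have hU' := (hU.mono_left nhdsWithin_le_nhds : Filter.Tendsto _ (nhdsWithin (1 : ℝ) (Ioi 1)) _).eventually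
    (gt_mem_nhds (show 3 * (2 - √2) / 2 < 3 * (2 - √2) / 2 + δ by linarith))
  filter_upwards [hL', hU', self_mem_nhdsWithin] with M h1 h2 hM
  have hM' : (1 : ℝ) < M := hM
  obtain ⟨h3, h4⟩ := h M _ hM'.le rfl
  have hM0 : 0 < M - 1 := by linarith
  constructor
  · refine le_trans ?_ h3
    have e : (M - 1) / (M + 1) / √(9 / 16 + ((M - 1) / (M + 1)) ^ 2) =
        1 / ((M + 1) * √(9 / 16 + ((M - 1) / (M + 1)) ^ 2)) * (M - 1) := by
      have : 0 < √(9 / 16 + ((M - 1) / (M + 1)) ^ 2) := by positivity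
      field_simp
    rw [e]
    exact mul_le_mul_of_nonneg_right h1.le hM0.le
  · refine le_trans h4 ?_
    have e : (2 - √2) * ((M - 1) / (M + 1) * (1 + (M - 1) / (M + 1)) * (3 - (M - 1) / (M + 1))) =
        (2 - √2) * ((1 + (M - 1) / (M + 1)) * (3 - (M - 1) / (M + 1))) / (M + 1) * (M - 1) := by
      ring
    rw [e]
    exact mul_le_mul_of_nonneg_right h2.le hM0.le

/-- Explicit two-sided bounds for `c(M)`, for every `M ≥ 1`: a first pair, sharp in order at both
ends, and a second pair that is better for `M` near `1`. -/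
theorem result :
    (∀ M : ℝ, 1 ≤ M → (∀ F : ℂ → ℂ, IsQSStarlike M F → ‖A2 F‖ ≤ 2 * (M - 1) / (M + 1)) ∧
      IsQSStarlike M (fun z => z / (1 - (((√M - 1) / (√M + 1) : ℝ) : ℂ) * z) ^ 2) ∧
      ‖A2 (fun z => z / (1 - (((√M - 1) / (√M + 1) : ℝ) : ℂ) * z) ^ 2)‖ =
        2 * (√M - 1) / (√M + 1) ∧
      2 * (√M - 1) / (√M + 1) ≤ c M ∧ c M ≤ 2 * (M - 1) / (M + 1)) ∧
    (∀ M κ : ℝ, 1 ≤ M → κ = (M - 1) / (M + 1) →
      (∀ F : ℂ → ℂ, IsQSStarlike M F → ‖A2 F‖ ≤ (2 - √2) * (κ * (1 + κ) * (3 - κ))) ∧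
      IsQSStarlike M (fun z => z * Complex.exp (((κ / √(9 / 16 + κ ^ 2) : ℝ) : ℂ) * z)) ∧
      ‖A2 (fun z => z * Complex.exp (((κ / √(9 / 16 + κ ^ 2) : ℝ) : ℂ) * z))‖ =
        κ / √(9 / 16 + κ ^ 2) ∧
      κ / √(9 / 16 + κ ^ 2) ≤ c M ∧ c M ≤ (2 - √2) * (κ * (1 + κ) * (3 - κ))) ∧
    (∀ M : ℝ, 1 ≤ M → c M < 2) ∧ Filter.Tendsto c Filter.atTop (nhds 2) ∧
    (∀ δ : ℝ, 0 < δ → ∀ᶠ M in nhdsWithin (1 : ℝ) (Ioi 1),
      (2 / 3 - δ) * (M - 1) ≤ c M ∧ c M ≤ (3 * (2 - √2) / 2 + δ) * (M - 1)) := by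
  have main : ∀ M : ℝ, 1 ≤ M →
      (∀ F : ℂ → ℂ, IsQSStarlike M F → ‖A2 F‖ ≤ 2 * (M - 1) / (M + 1)) ∧
      IsQSStarlike M (fun z => z / (1 - (((√M - 1) / (√M + 1) : ℝ) : ℂ) * z) ^ 2) ∧
      ‖A2 (fun z => z / (1 - (((√M - 1) / (√M + 1) : ℝ) : ℂ) * z) ^ 2)‖ =
        2 * (√M - 1) / (√M + 1) ∧
      2 * (√M - 1) / (√M + 1) ≤ c M ∧ c M ≤ 2 * (M - 1) / (M + 1) := by
    intro M hM
    have hK : 1 ≤ √M := Real.one_le_sqrt.2 hM
    have hK1 : 0 < √M + 1 := by linarith
    have h0 : 0 ≤ (√M - 1) / (√M + 1) := div_nonneg (by linarith) hK1.le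
    have h1 : (√M - 1) / (√M + 1) < 1 := by rw [div_lt_one hK1]; linarith
    have hrK : √M * (1 - (√M - 1) / (√M + 1)) = 1 + (√M - 1) / (√M + 1) := by
      field_simp; ring
    obtain ⟨m1, m2⟩ := member _ _ h0 h1 hK hrK
    rw [Real.sq_sqrt (by linarith)] at m1
    have hup := upper M hM
    have hn : ‖A2 (fun z => z / (1 - (((√M - 1) / (√M + 1) : ℝ) : ℂ) * z) ^ 2)‖ =
        2 * (√M - 1) / (√M + 1) := by
      rw [m2, norm_mul, Complex.norm_real, Real.norm_of_nonneg h0, mul_div_assoc]; simp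
    refine ⟨hup, m1, hn, ?_, ?_⟩
    · apply le_csSup
      · refine ⟨2 * (M - 1) / (M + 1), ?_⟩
        rintro x ⟨F, hF, rfl⟩
        exact hup F hF
      · exact ⟨_, m1, hn.symm⟩
    · apply csSup_le
      · exact ⟨_, _, m1, rfl⟩
      · rintro x ⟨F, hF, rfl⟩
        exact hup F hF
  have main2 : ∀ M κ : ℝ, 1 ≤ M → κ = (M - 1) / (M + 1) →
      (∀ F : ℂ → ℂ, IsQSStarlike M F → ‖A2 F‖ ≤ (2 - √2) * (κ * (1 + κ) * (3 - κ))) ∧
      IsQSStarlike M (fun z => z * Complex.exp (((κ / √(9 / 16 + κ ^ 2) : ℝ) : ℂ) * z)) ∧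
      ‖A2 (fun z => z * Complex.exp (((κ / √(9 / 16 + κ ^ 2) : ℝ) : ℂ) * z))‖ =
        κ / √(9 / 16 + κ ^ 2) ∧
      κ / √(9 / 16 + κ ^ 2) ≤ c M ∧ c M ≤ (2 - √2) * (κ * (1 + κ) * (3 - κ)) := by
    intro M κ hM hκ
    have hup := upper2 M κ hM hκ
    obtain ⟨m1, m2⟩ := member2 M κ _ _ hM hκ rfl rfl
    have hκ0 : 0 ≤ κ := by rw [hκ]; exact div_nonneg (by linarith) (by linarith)
    have hn : ‖A2 (fun z => z * Complex.exp (((κ / √(9 / 16 + κ ^ 2) : ℝ) : ℂ) * z))‖ =
        κ / √(9 / 16 + κ ^ 2) := by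
      rw [m2, Complex.norm_real, Real.norm_of_nonneg (by positivity)]
    refine ⟨hup, m1, hn, ?_, ?_⟩
    · apply le_csSup
      · refine ⟨(2 - √2) * (κ * (1 + κ) * (3 - κ)), ?_⟩
        rintro x ⟨F, hF, rfl⟩
        exact hup F hF
      · exact ⟨_, m1, hn.symm⟩
    · apply csSup_le
      · exact ⟨_, _, m1, rfl⟩
      · rintro x ⟨F, hF, rfl⟩
        exact hup F hF
  refine ⟨main, main2, ?_, ?_, ?_⟩
  · intro M hM
    refine lt_of_le_of_lt (main M hM).2.2.2.2 ?_
    rw [div_lt_iff₀ (by linarith)]; linarith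
  · have hl : Filter.Tendsto (fun M : ℝ => 2 * (√M - 1) / (√M + 1)) Filter.atTop (nhds 2) := by
      have e : (fun M : ℝ => 2 * (√M - 1) / (√M + 1)) =ᶠ[Filter.atTop]
          fun M => 2 - 4 * (√M + 1)⁻¹ := by
        filter_upwards with M
        have : 0 < √M + 1 := by positivity
        field_simp; ring
      rw [Filter.tendsto_congr' e]
      have h2 : Filter.Tendsto (fun M : ℝ => (√M + 1)⁻¹) Filter.atTop (nhds 0) :=
        Filter.Tendsto.inv_tendsto_atTop
          (Filter.tendsto_atTop_add_const_right _ _ Real.tendsto_sqrt_atTop)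
      simpa using (h2.const_mul 4).const_sub 2
    refine tendsto_of_tendsto_of_tendsto_of_le_of_le' hl tendsto_const_nhds ?_ ?_
    · filter_upwards [Filter.eventually_ge_atTop 1] with M hM
      exact (main M hM).2.2.2.1
    · filter_upwards [Filter.eventually_ge_atTop 1] with M hM
      refine (main M hM).2.2.2.2.trans ?_
      rw [div_le_iff₀ (by linarith)]; linarith
  · intro δ hδ
    exact limaux c (fun M κ hM hκ => (main2 M κ hM hκ).2.2.2) δ hδ

end Pool.Agent.Results.MP_e5b4ec_an.TwoSided
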